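import Pool.Agent.Helper76.SGC.Goals

/-!
# Project SG (MP_a41896_nt), packet SGC1-NFB: norm frames, basic rules
-/

set_option autoImplicit false

namespace Pool.Agent.Helper35.SGC1

open Pool.Agent.Helper29.BL Pool.Agent.Helper42.SG Pool.Agent.Helper76.SGC

theorem nfb : NFB := by
  classical
  intro K _ v A _ _ N hN
  have h0 : N 0 0 := by
    have h := hN.const 0
    rwa [map_zero, map_zero] at h
  have h1 : N 1 1 := by
    have h := hN.const 1
    rwa [map_one, map_one] at h
  refine ⟨h0, h1, ?_, ?_, ?_⟩
  · intro f T hf k
    induction k with
    | zero =>
      rw [pow_zero, pow_zero]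
      exact h1
    | succ k ih =>
      rw [pow_succ, pow_succ]
      exact hN.mul _ _ _ _ ih hf
  · intro ι S f T hf
    induction S using Finset.induction_on with
    | empty =>
      rw [Finset.prod_empty, Finset.prod_empty]
      exact h1
    | insert a S ha ih =>
      rw [Finset.prod_insert ha, Finset.prod_insert ha]
      exact hN.mul _ _ _ _ (hf a (Finset.mem_insert_self a S))
        (ih fun x hx => hf x (Finset.mem_insert_of_mem hx))
  · intro ι S f T hT hf
    by_cases hv : IsNonarchimedean v
    · have hc : ∀ x : ℝ, cst v x = 1 := fun x => by
        unfold cst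
        rw [if_pos hv]
      rw [hc, one_mul]
      induction S using Finset.induction_on with
      | empty =>
        rw [Finset.sum_empty]
        exact hN.mono _ _ _ h0 hT
      | insert a S ha ih =>
        rw [Finset.sum_insert ha]
        have h2 := hN.max hv _ _ _ _ (hf a (Finset.mem_insert_self a S))
          (ih fun x hx => hf x (Finset.mem_insert_of_mem hx))
        rwa [max_self] at h2
    · have hc : ∀ x : ℝ, cst v x = x := fun x => by
        unfold cst
        rw [if_neg hv]
      rw [hc]
      induction S using Finset.induction_on with
      | empty =>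
        rw [Finset.sum_empty, Finset.card_empty, Nat.cast_zero, zero_mul]
        exact h0
      | insert a S ha ih =>
        rw [Finset.sum_insert ha, Finset.card_insert_of_notMem ha, Nat.cast_add, Nat.cast_one,
          add_mul, one_mul, add_comm ((S.card : ℝ) * T)]
        exact hN.add _ _ _ _ (hf a (Finset.mem_insert_self a S))
          (ih fun x hx => hf x (Finset.mem_insert_of_mem hx))

end Pool.Agent.Helper35.SGC1
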