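import Pool.Agent.Helper76.SGC.Goals

/-!
# Project SG (MP_a41896_nt), packet SGC1-SPL: splitting a sum over a product
-/

set_option autoImplicit false

namespace Pool.Agent.Helper35.SGC1

open Pool.Agent.Helper76.SGC

theorem spl : SPL := by
  intro ι _ _ A _ _ i0 i1 hne d0 d1 R _ f
  let e : ({α0 : ∀ i, A i // α0 i0 = d0 ∧ α0 i1 = d1} × A i0 × A i1) ≃ (∀ i, A i) :=
    { toFun := fun p => Function.update (Function.update p.1.1 i0 p.2.1) i1 p.2.2
      invFun := fun α => (⟨Function.update (Function.update α i0 d0) i1 d1, by
        constructor
        · rw [Function.update_of_ne hne, Function.update_self]
        · rw [Function.update_self]⟩, α i0, α i1)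
      left_inv := by
        rintro ⟨⟨α0, h0, h1⟩, x, x'⟩
        refine Prod.ext (Subtype.ext ?_) (Prod.ext ?_ ?_)
        · funext j
          show Function.update (Function.update (Function.update (Function.update α0 i0 x) i1 x')
            i0 d0) i1 d1 j = α0 j
          by_cases hj1 : j = i1
          · subst hj1
            rw [Function.update_self, h1]
          · rw [Function.update_of_ne hj1]
            by_cases hj0 : j = i0
            · subst hj0
              rw [Function.update_self, h0]
            · rw [Function.update_of_ne hj0, Function.update_of_ne hj1,
                Function.update_of_ne hj0]
        · show Function.update (Function.update α0 i0 x) i1 x' i0 = x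
          rw [Function.update_of_ne hne, Function.update_self]
        · show Function.update (Function.update α0 i0 x) i1 x' i1 = x'
          rw [Function.update_self]
      right_inv := by
        intro α
        funext j
        show Function.update (Function.update (Function.update (Function.update α i0 d0) i1 d1)
          i0 (α i0)) i1 (α i1) j = α j
        by_cases hj1 : j = i1
        · subst hj1
          rw [Function.update_self]
        · rw [Function.update_of_ne hj1]
          by_cases hj0 : j = i0
          · subst hj0
            rw [Function.update_self]
          · rw [Function.update_of_ne hj0, Function.update_of_ne hj1,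
              Function.update_of_ne hj0] }
  rw [← Equiv.sum_comp e f, Fintype.sum_prod_type]
  refine Finset.sum_congr rfl fun α0 _ => ?_
  rw [Fintype.sum_prod_type]
  rfl

end Pool.Agent.Helper35.SGC1
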